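import Pool.Prelude.Def_F_f5f3026a
import Pool.Agent.Helper920_Ratio.Tail

/-! The independence sequence of a graph with `n` vertices and independence number `α` is
nonincreasing from about `(n + 2 α) / 6` on. -/

set_option autoImplicit false

namespace Pool.Agent.Results.MP_346bfe_co.DecreasingTail

open Pool.Agent.Helper920.Ratio N36365310

lemma indep_iff {V : Type} (G : SimpleGraph V) (J : Finset V) :
    G.IsIndepSet (J : Set V) ↔ Indep G J := by
  constructor
  · intro h x hx y hy hxy
    exact h hx hy hxy.ne hxy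
  · intro h x hx y hy _ hxy
    exact h x hx y hy hxy

lemma seq_eq {V : Type} [Fintype V] (G : SimpleGraph V) (k : ℕ) :
    indepSeq G k = (ind G k).card := by
  classical
  unfold indepSeq
  rw [Nat.card_eq_fintype_card, Fintype.card_subtype]
  congr 1
  ext J
  rw [mem_ind, Finset.mem_filter, indep_iff]
  constructor
  · rintro ⟨_, h1, h2⟩; exact ⟨h2, h1⟩
  · rintro ⟨h1, h2⟩; exact ⟨Finset.mem_univ _, h2, h1⟩

/-- Let `G` be a graph on `n` vertices all of whose independent sets have at most `α` vertices.
If `n (k + 1) + 2 α k ≤ (2 k + 1) (3 k + 1)` then `i_l(G) ≥ i_{l+1}(G)` for all `l ≥ k`. -/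
theorem result : ∀ (V : Type) [Fintype V] (G : SimpleGraph V) (α : ℕ),
    (∀ J : Finset V, G.IsIndepSet (J : Set V) → J.card ≤ α) →
    ∀ k : ℕ, Fintype.card V * (k + 1) + 2 * α * k ≤ (2 * k + 1) * (3 * k + 1) →
      ∀ l : ℕ, k ≤ l → indepSeq G (l + 1) ≤ indepSeq G l := by
  intro V _ G α hα k hk l hl
  rw [seq_eq, seq_eq]
  have hα' : ∀ J : Finset V, Indep G J → J.card ≤ α := fun J hJ => hα J ((indep_iff G J).2 hJ)
  rcases Nat.eq_zero_or_pos k with hk0 | hk0
  · subst hk0
    have hn : Fintype.card V ≤ 1 := by simpa using hk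
    rcases Nat.eq_zero_or_pos l with hl0 | hl0
    · subst hl0
      exact tail G α 0 hα' hk
    · have h0 : (ind G (l + 1)).card = 0 := by
        rw [Finset.card_eq_zero, Finset.eq_empty_iff_forall_notMem]
        intro J hJ
        have h1 := (mem_ind.1 hJ).2
        have h2 := Finset.card_le_univ J
        omega
      rw [h0]
      exact Nat.zero_le _
  · refine tail G α l hα' ?_
    have key : ∀ t : ℕ, Fintype.card V * (k + t + 1) + 2 * α * (k + t) ≤
        (2 * (k + t) + 1) * (3 * (k + t) + 1) := by
      have hb : Fintype.card V + 2 * α ≤ 6 * k + 6 := by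
        by_contra hcon
        push Not at hcon
        nlinarith
      intro t
      nlinarith
    obtain ⟨t, rfl⟩ : ∃ t, l = k + t := ⟨l - k, by omega⟩
    exact key t

end Pool.Agent.Results.MP_346bfe_co.DecreasingTail
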